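import Mathlib

/-!
# Boundedness of the `φ`-numerical ranges `W_φ^(α)(A)`, `α ≠ 0`, of quaternion matrices

If `y_φ y = 0` and `y ≠ 0`, there is an isotropic `z` with `y_φ z = α / 2`, and `t y + z / t` lies in
the set `x_φ x = α` for all `t > 0`; so boundedness forces `y_φ A y = 0` for all isotropic `y`, which
leaves only the real scalar matrices (`n ≥ 3`) and a four-dimensional quaternion subalgebra (`n = 2`).
Conversely, for `n = 2` one has, with `φ(x) = -q x^* q`,
`(|x₁|² - |x₂|²)² + (2 Re x₁^* x₂)² + (2 Re x₁^* q x₂)² = |x_φ x|²`, and `x_φ A x` is a linear function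
of `x_φ x` and of these three numbers for all `A` in this subalgebra.
-/

set_option autoImplicit false

open Quaternion
open scoped BigOperators

namespace Pool.Agent.Results.MP_dceaed_al.BoundedRanges

/-- the real quaternions -/
abbrev Hq : Type := ℍ[ℝ]

/-- `φ` is an involution of the quaternions which is not the quaternion conjugation. -/
def Nonstandard (φ : Hq →ₗ[ℝ] Hq) : Prop :=
  (∀ x y, φ (x * y) = φ y * φ x) ∧ (∀ x, φ (φ x) = x) ∧ ∃ x, φ x ≠ star x

/-- `x_φ y` for columns `x`, `y`. -/
noncomputable def form (φ : Hq →ₗ[ℝ] Hq) {n : ℕ} (x y : Fin n → Hq) : Hq := ∑ i, φ (x i) * y i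

/-- The `φ`-numerical range `W_φ^(α)(A) = {x_φ A x : x_φ x = α}`. -/
def W (φ : Hq →ₗ[ℝ] Hq) (α : Hq) {n : ℕ} (A : Matrix (Fin n) (Fin n) Hq) : Set Hq :=
  {w | ∃ x : Fin n → Hq, form φ x x = α ∧ w = form φ x (A.mulVec x)}

/-! ### Nonstandard involutions -/

noncomputable section

/-- the unit `i` -/
def qi : Hq := ⟨0, 1, 0, 0⟩
/-- the unit `j` -/
def qj : Hq := ⟨0, 0, 1, 0⟩
/-- the unit `k` -/
def qk : Hq := ⟨0, 0, 0, 1⟩

@[simp] theorem qi_re : qi.re = 0 := rfl
@[simp] theorem qi_i : qi.imI = 1 := rfl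
@[simp] theorem qi_j : qi.imJ = 0 := rfl
@[simp] theorem qi_k : qi.imK = 0 := rfl
@[simp] theorem qj_re : qj.re = 0 := rfl
@[simp] theorem qj_i : qj.imI = 0 := rfl
@[simp] theorem qj_j : qj.imJ = 1 := rfl
@[simp] theorem qj_k : qj.imK = 0 := rfl
@[simp] theorem qk_re : qk.re = 0 := rfl
@[simp] theorem qk_i : qk.imI = 0 := rfl
@[simp] theorem qk_j : qk.imJ = 0 := rfl
@[simp] theorem qk_k : qk.imK = 1 := rfl

/-- the map `x ↦ -i x^* i` -/
def p0 (x : Hq) : Hq := ⟨x.re, -x.imI, x.imJ, x.imK⟩

@[simp] theorem p0_re (x : Hq) : (p0 x).re = x.re := rfl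
@[simp] theorem p0_i (x : Hq) : (p0 x).imI = -x.imI := rfl
@[simp] theorem p0_j (x : Hq) : (p0 x).imJ = x.imJ := rfl
@[simp] theorem p0_k (x : Hq) : (p0 x).imK = x.imK := rfl

/-- the involution `x ↦ -i x^* i` -/
def phi0 : Hq →ₗ[ℝ] Hq where
  toFun := p0
  map_add' x y := by ext <;> simp [add_comm]
  map_smul' r x := by ext <;> simp

@[simp] theorem phi0_re (x : Hq) : (phi0 x).re = x.re := rfl
@[simp] theorem phi0_i (x : Hq) : (phi0 x).imI = -x.imI := rfl
@[simp] theorem phi0_j (x : Hq) : (phi0 x).imJ = x.imJ := rfl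
@[simp] theorem phi0_k (x : Hq) : (phi0 x).imK = x.imK := rfl

theorem phi0_eq (x : Hq) : phi0 x = -(qi * star x * qi) := by
  ext <;> simp

theorem decomp (x : Hq) : x = (x.re : Hq) + x.imI • qi + x.imJ • qj + x.imK • qk := by
  ext <;> simp

theorem exists_q (φ : Hq →ₗ[ℝ] Hq) (h : Nonstandard φ) :
    ∃ q : Hq, q * q = -1 ∧ star q = -q ∧ ∀ x, φ x = -(q * star x * q) := by
  obtain ⟨hmul, hinv, hns⟩ := h
  have hone : φ 1 = 1 := by
    have h1 := hmul 1 (φ 1)
    rw [hinv, one_mul, hinv] at h1
    simpa using h1.symm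
  -- the automorphism
  set σ : Hq → Hq := fun x => star (φ x) with hσ
  have σadd : ∀ x y, σ (x + y) = σ x + σ y := by intro x y; simp [hσ]
  have σsmul : ∀ (r : ℝ) x, σ (r • x) = r • σ x := by intro r x; simp [hσ]
  have σmul : ∀ x y, σ (x * y) = σ x * σ y := by intro x y; simp [hσ, hmul]
  have σone : σ 1 = 1 := by simp [hσ, hone]
  have σcoe : ∀ r : ℝ, σ (r : Hq) = (r : Hq) := by
    intro r
    have : (r : Hq) = r • (1 : Hq) := by ext <;> simp
    rw [this, σsmul, σone]
  have ii : qi * qi = -1 := by ext <;> simp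
  have jj : qj * qj = -1 := by ext <;> simp
  have kk : qk * qk = -1 := by ext <;> simp
  have ij : qi * qj = qk := by ext <;> simp
  have ji : qj * qi = -qk := by ext <;> simp
  have jk : qj * qk = qi := by ext <;> simp
  have kj : qk * qj = -qi := by ext <;> simp
  have ki : qk * qi = qj := by ext <;> simp
  have ik : qi * qk = -qj := by ext <;> simp
  have σneg : ∀ x, σ (-x) = -σ x := by intro x; simp [hσ]
  -- average
  set Q : Hq → Hq := fun y => y - σ qi * y * qi - σ qj * y * qj - σ qk * y * qk with hQ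
  have hQi : ∀ y, σ qi * Q y = Q y * qi := by
    intro y
    have e1 : σ qi * σ qi = -1 := by rw [← σmul, ii, σneg, σone]
    have e2 : σ qi * σ qj = σ qk := by rw [← σmul, ij]
    have e3 : σ qi * σ qk = -σ qj := by rw [← σmul, ik, σneg]
    simp only [hQ, mul_sub, sub_mul, ← mul_assoc, e1, e2, e3]
    simp only [mul_assoc, ii, ji, ki]
    simp only [mul_neg, neg_mul, one_mul, mul_one]
    abel
  have hQj : ∀ y, σ qj * Q y = Q y * qj := by
    intro y
    have e1 : σ qj * σ qj = -1 := by rw [← σmul, jj, σneg, σone]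
    have e2 : σ qj * σ qi = -σ qk := by rw [← σmul, ji, σneg]
    have e3 : σ qj * σ qk = σ qi := by rw [← σmul, jk]
    simp only [hQ, mul_sub, sub_mul, ← mul_assoc, e1, e2, e3]
    simp only [mul_assoc, jj, ij, kj]
    simp only [mul_neg, neg_mul, one_mul, mul_one]
    abel
  have hQk : ∀ y, σ qk * Q y = Q y * qk := by
    intro y
    have e1 : σ qk * σ qk = -1 := by rw [← σmul, kk, σneg, σone]
    have e2 : σ qk * σ qi = σ qj := by rw [← σmul, ki]
    have e3 : σ qk * σ qj = -σ qi := by rw [← σmul, kj, σneg]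
    simp only [hQ, mul_sub, sub_mul, ← mul_assoc, e1, e2, e3]
    simp only [mul_assoc, kk, ik, jk]
    simp only [mul_neg, neg_mul, one_mul, mul_one]
    abel
  have hQx : ∀ x y, σ x * Q y = Q y * x := by
    intro x y
    rw [decomp x, σadd, σadd, σadd, σsmul, σsmul, σsmul, σcoe]
    simp only [add_mul, mul_add, smul_mul_assoc, mul_smul_comm, hQi, hQj, hQk]
    rw [(Quaternion.coe_commutes x.re (Q y))]
  have hex : ∃ y, Q y ≠ 0 := by
    by_contra hc
    push Not at hc
    have h4 : Q 1 - Q qi * qi - Q qj * qj - Q qk * qk = ((4 : ℝ) : Hq) := by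
      simp only [hQ, sub_mul, mul_assoc, mul_one, ii, jj, kk, ij, ji, jk, kj, ki, ik, mul_neg, neg_mul,
        one_mul]
      ext <;> simp <;> ring
    rw [hc, hc, hc, hc] at h4
    have h5 := congrArg (fun z : Hq => z.re) h4
    simp at h5
  obtain ⟨y, hy⟩ := hex
  set p := Q y with hp
  have hpx : ∀ x, σ x * p = p * x := fun x => hQx x y
  have hσσ : ∀ x, σ (σ x) = x := by
    intro x
    have h1 : σ (σ x) * (p * p) = x * (p * p) := by
      have e1 : p * σ x = σ (σ x) * p := (hpx (σ x)).symm
      -- `φ (star x) = star (φ x)`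
      have hstar : ∀ z : Hq, φ (star z) = star (φ z) := by
        intro z
        have t1 : z + star z = ((2 * z.re : ℝ) : Hq) := by
            ext <;> simp <;> ring
        have t2 : σ (z + star z) = z + star z := by rw [t1, σcoe]
        have t3 : σ z * p = p * z := hpx z
        have t4 : σ z + σ (star z) = z + star z := by rw [← σadd, t2]
        -- real part of `σ z`
        have t5 : (σ z).re = z.re := by
          have t6 : σ z = p * z * p⁻¹ := by
            rw [← t3, mul_assoc, mul_inv_cancel₀ hy, mul_one]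
          have t7 : ∀ a b : Hq, (a * b).re = (b * a).re := by
            intro a b; simp; ring
          rw [t6, t7, ← mul_assoc, inv_mul_cancel₀ hy, one_mul]
        have t8 : σ (star z) = star (σ z) := by
          have t9 : σ z + star (σ z) = ((2 * (σ z).re : ℝ) : Hq) := by
              ext <;> simp <;> ring
          rw [t5, ← t1] at t9
          have := t4.trans t9.symm
          exact add_left_cancel this
        have t10 := congrArg star t8
        simpa [hσ] using t10
      simp only [hσ] 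
      rw [hstar, star_star, hinv]
    exact mul_right_cancel₀ (mul_ne_zero hy hy) h1
  have hcent : ∀ x, x * (p * p) = (p * p) * x := by
    intro x
    have e1 : x * p = p * σ x := by rw [← hpx (σ x), hσσ]
    rw [← mul_assoc, e1, mul_assoc, hpx, ← mul_assoc]
  have h1 := hcent qi
  have h2 := hcent qj
  -- `p` is pure
  have hpure : p.re = 0 := by
    by_contra hre
    have c1 := congrArg (fun z : Hq => z.imJ) h1
    have c2 := congrArg (fun z : Hq => z.imK) h1
    have c3 := congrArg (fun z : Hq => z.imK) h2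
    simp at c1 c2 c3
    have d3 : p.imK = 0 := by
      have : p.re * p.imK = 0 := by nlinarith [c1]
      rcases mul_eq_zero.1 this with h | h
      · exact absurd h hre
      · exact h
    have d2 : p.imJ = 0 := by
      have : p.re * p.imJ = 0 := by nlinarith [c2]
      rcases mul_eq_zero.1 this with h | h
      · exact absurd h hre
      · exact h
    have d1 : p.imI = 0 := by
      have : p.re * p.imI = 0 := by nlinarith [c3]
      rcases mul_eq_zero.1 this with h | h
      · exact absurd h hre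
      · exact h
    have hpr : p = (p.re : Hq) := by ext <;> simp [d1, d2, d3]
    obtain ⟨z, hz⟩ := hns
    apply hz
    have e1 := hpx z
    rw [hpr, Quaternion.coe_commutes, ← hpr] at e1
    have e2 : σ z = z := by
      have hne : (p.re : Hq) ≠ 0 := by rw [← hpr]; exact hy
      have e3 : σ z * p = z * p := by rw [e1, hpr]
      exact mul_right_cancel₀ hy e3
    have e4 := congrArg star e2
    simpa [hσ] using e4
  -- normalise
  have hnp : 0 < ‖p‖ := norm_pos_iff.2 hy
  refine ⟨(‖p‖⁻¹ : ℝ) • p, ?_, ?_, ?_⟩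
  · have e1 : p * p = -((‖p‖ * ‖p‖ : ℝ) : Hq) := by
      have e2 : star p = -p := by ext <;> simp [hpure]
      have e3 := Quaternion.self_mul_star p
      rw [e2, Quaternion.normSq_eq_norm_mul_self] at e3
      rw [← e3]
      simp
    rw [smul_mul_smul_comm, e1]
    ext <;> simp
    field_simp
  · have e2 : star p = -p := by ext <;> simp [hpure]
    rw [Quaternion.star_smul, e2]
    simp
  · intro x
    have e2 : star p = -p := by ext <;> simp [hpure]
    have e1 : p * p = -((‖p‖ * ‖p‖ : ℝ) : Hq) := by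
      have e3 := Quaternion.self_mul_star p
      rw [e2, Quaternion.normSq_eq_norm_mul_self] at e3
      rw [← e3]
      simp
    have e4 : σ x * (p * p) = p * x * p := by rw [← mul_assoc, hpx]
    have e5 : σ x = -((‖p‖⁻¹ * ‖p‖⁻¹ : ℝ) • (p * x * p)) := by
      rw [← e4, e1]
      have e6 : σ x * -((‖p‖ * ‖p‖ : ℝ) : Hq) = -((‖p‖ * ‖p‖ : ℝ) • σ x) := by
        rw [mul_neg, Quaternion.mul_coe_eq_smul]
      rw [e6, smul_neg, smul_smul, neg_neg]
      have e7 : ‖p‖⁻¹ * ‖p‖⁻¹ * (‖p‖ * ‖p‖) = 1 := by field_simp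
      rw [e7, one_smul]
    have e8 : φ x = star (σ x) := by simp [hσ]
    rw [e8, e5, star_neg, Quaternion.star_smul, star_mul, star_mul, e2]
    simp only [smul_mul_assoc, mul_smul_comm, smul_smul]
    simp [mul_assoc]

/-- There is a unit quaternion `g` which conjugates `φ` to `x ↦ -i x^* i`. -/
theorem exists_g (φ : Hq →ₗ[ℝ] Hq) (h : Nonstandard φ) :
    ∃ g : Hq, g * star g = 1 ∧ star g * g = 1 ∧
      ∀ x, φ x = star g * phi0 (g * x * star g) * g := by
  obtain ⟨q, hq1, hq2, hq3⟩ := exists_q φ h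
  -- a nonzero `g₀` with `g₀ q = i g₀`
  have h1 : ∃ g₀ : Hq, g₀ ≠ 0 ∧ g₀ * q = qi * g₀ := by
    have ii : qi * qi = -1 := by ext <;> simp
    by_cases hz : 1 - qi * q = 0
    · refine ⟨qj, ?_, ?_⟩
      · intro h0
        have := congrArg (fun z : Hq => z.imJ) h0
        simp at this
      · have e1 : q = -qi := by
          have e2 : qi * (1 - qi * q) = 0 := by rw [hz, mul_zero]
          rw [mul_sub, mul_one, ← mul_assoc, ii, neg_one_mul, sub_neg_eq_add] at e2
          exact (neg_eq_of_add_eq_zero_right e2).symm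
        rw [e1]
        ext <;> simp
    · refine ⟨1 - qi * q, hz, ?_⟩
      rw [sub_mul, mul_sub, mul_assoc, hq1, ← mul_assoc, ii]
      simp [add_comm]
  obtain ⟨g₀, hg0, hg1⟩ := h1
  have hn : 0 < ‖g₀‖ := norm_pos_iff.2 hg0
  have hn1 : ‖(‖g₀‖⁻¹ : ℝ) • g₀‖ = 1 := by
    rw [norm_smul, norm_inv, norm_norm, inv_mul_cancel₀ hn.ne']
  set g : Hq := (‖g₀‖⁻¹ : ℝ) • g₀ with hg
  have hgq : g * q = qi * g := by rw [hg, smul_mul_assoc, hg1, mul_smul_comm]
  have hg1 : g * star g = 1 := by
    rw [Quaternion.self_mul_star, Quaternion.normSq_eq_norm_mul_self, hn1]; simp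
  have hg2 : star g * g = 1 := by
    rw [Quaternion.star_mul_self, Quaternion.normSq_eq_norm_mul_self, hn1]; simp
  refine ⟨g, hg1, hg2, fun x => ?_⟩
  have e1 : star g * qi * g = q := by rw [mul_assoc, ← hgq, ← mul_assoc, hg2, one_mul]
  rw [phi0_eq, hq3, star_mul, star_mul, star_star]
  rw [mul_neg, neg_mul]
  congr 1
  calc q * star x * q = (star g * qi * g) * star x * (star g * qi * g) := by rw [e1]
    _ = star g * (qi * (g * (star x * star g)) * qi) * g := by simp only [mul_assoc]

/-! ### The standard nonstandard involution -/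

theorem form0_star {n : ℕ} (x y : Fin n → Hq) : phi0 (form phi0 x y) = form phi0 y x := by
  unfold form
  rw [map_sum]
  refine Finset.sum_congr rfl fun i _ => ?_
  ext <;> simp <;> ring

theorem form_add_left {n : ℕ} (x y z : Fin n → Hq) :
    form phi0 (x + y) z = form phi0 x z + form phi0 y z := by
  simp [form, add_mul, Finset.sum_add_distrib]

theorem form_add_right {n : ℕ} (x y z : Fin n → Hq) :
    form phi0 x (y + z) = form phi0 x y + form phi0 x z := by
  simp [form, mul_add, Finset.sum_add_distrib]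

theorem form_smul_left {n : ℕ} (r : ℝ) (x y : Fin n → Hq) :
    form phi0 (r • x) y = r • form phi0 x y := by
  simp [form, Finset.smul_sum]

theorem form_smul_right {n : ℕ} (r : ℝ) (x y : Fin n → Hq) :
    form phi0 x (r • y) = r • form phi0 x y := by
  simp [form, Finset.smul_sum]

/-- If `W` is bounded then `y_φ A y = 0` for all isotropic `y`. -/
theorem isotropic {n : ℕ} (α : Hq) (hα : phi0 α = α) (A : Matrix (Fin n) (Fin n) Hq)
    (hb : Bornology.IsBounded (W phi0 α A)) (y : Fin n → Hq) (hy : form phi0 y y = 0) :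
    form phi0 y (A.mulVec y) = 0 := by
  by_cases hy0 : y = 0
  · subst hy0
    simp [form]
  set N : ℝ := ∑ i, Quaternion.normSq (phi0 (y i)) with hN
  have hNpos : 0 < N := by
    have h1 : ∃ i, y i ≠ 0 := by
      by_contra hc
      push Not at hc
      exact hy0 (funext hc)
    obtain ⟨i, hi⟩ := h1
    have h2 : 0 < Quaternion.normSq (phi0 (y i)) := by
      have h3 : Quaternion.normSq (phi0 (y i)) = Quaternion.normSq (y i) := by
        rw [Quaternion.normSq_def', Quaternion.normSq_def']; simp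
      rw [h3, Quaternion.normSq_eq_norm_mul_self]
      have := norm_pos_iff.2 hi
      positivity
    exact Finset.sum_pos' (fun j _ => Quaternion.normSq_nonneg) ⟨i, Finset.mem_univ i, h2⟩
  set c : Hq := (2 * N)⁻¹ • α with hc
  set yh : Fin n → Hq := fun i => star (phi0 (y i)) with hyh
  set z : Fin n → Hq := fun i => yh i * c with hz
  have f1 : form phi0 y z = (2⁻¹ : ℝ) • α := by
    have e1 : form phi0 y z = (∑ i, phi0 (y i) * yh i) * c := by
      simp only [form, hz, Finset.sum_mul, mul_assoc]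
    have e2 : (∑ i, phi0 (y i) * yh i) = (N : Hq) := by
      simp only [hyh, Quaternion.self_mul_star]
      rw [hN]
      exact (map_sum (algebraMap ℝ Hq) _ _).symm
    rw [e1, e2, hc, Quaternion.coe_mul_eq_smul, smul_smul]
    congr 1
    field_simp
  have f2 : form phi0 z y = (2⁻¹ : ℝ) • α := by
    rw [← form0_star, f1, map_smul, hα]
  have f3 : form phi0 z z = 0 := by
    have e1 : form phi0 z z = phi0 c * (∑ i, phi0 (yh i) * yh i) * c := by
      simp only [form, hz, Finset.sum_mul, Finset.mul_sum]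
      refine Finset.sum_congr rfl fun i _ => ?_
      have e2 : phi0 (yh i * c) = phi0 c * phi0 (yh i) := by
        ext <;> simp <;> ring
      rw [e2]
      simp only [mul_assoc]
    have e3 : (∑ i, phi0 (yh i) * yh i) = star (form phi0 y y) := by
      simp only [form, star_sum, hyh]
      refine Finset.sum_congr rfl fun i _ => ?_
      ext <;> simp
    rw [e1, e3, hy]
    simp
  -- the curve
  have key : ∀ t : ℝ, 0 < t → form phi0 (t • y + t⁻¹ • z) (t • y + t⁻¹ • z) = α := by
    intro t ht
    rw [form_add_left, form_add_right, form_add_right]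
    simp only [form_smul_left, form_smul_right, hy, f1, f2, f3, smul_zero, smul_smul]
    rw [zero_add, add_zero, ← add_smul]
    have h2 : t⁻¹ * (t * 2⁻¹) + t * (t⁻¹ * 2⁻¹) = 1 := by field_simp; norm_num
    rw [h2, one_smul]
  set a := form phi0 y (A.mulVec y) with ha
  set b := form phi0 y (A.mulVec z) + form phi0 z (A.mulVec y) with hbdef
  set d := form phi0 z (A.mulVec z) with hd
  have val : ∀ t : ℝ, 0 < t → form phi0 (t • y + t⁻¹ • z) (A.mulVec (t • y + t⁻¹ • z)) =
      (t * t) • a + b + (t⁻¹ * t⁻¹) • d := by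
    intro t ht
    rw [Matrix.mulVec_add, Matrix.mulVec_smul, Matrix.mulVec_smul, form_add_left, form_add_right,
      form_add_right]
    simp only [form_smul_left, form_smul_right, smul_smul]
    rw [mul_inv_cancel₀ ht.ne', inv_mul_cancel₀ ht.ne', one_smul, one_smul, ha, hbdef, hd]
    abel
  obtain ⟨C, hC⟩ := hb.exists_norm_le
  have bound : ∀ t : ℝ, 1 ≤ t → t * ‖a‖ ≤ C + ‖b‖ + ‖d‖ := by
    intro t ht
    have ht0 : 0 < t := by linarith
    have h1 : ‖(t * t) • a + b + (t⁻¹ * t⁻¹) • d‖ ≤ C := by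
      rw [← val t ht0]
      exact hC _ ⟨_, key t ht0, rfl⟩
    have h2 : (t * t) • a = ((t * t) • a + b + (t⁻¹ * t⁻¹) • d) - b - (t⁻¹ * t⁻¹) • d := by abel
    have h3 : ‖(t * t) • a‖ ≤ C + ‖b‖ + ‖(t⁻¹ * t⁻¹) • d‖ := by
      rw [h2]
      refine (norm_sub_le _ _).trans ?_
      have := norm_sub_le ((t * t) • a + b + (t⁻¹ * t⁻¹) • d) b
      linarith
    rw [norm_smul, norm_smul, Real.norm_of_nonneg (by positivity),
      Real.norm_of_nonneg (by positivity)] at h3
    have h4 : t⁻¹ ≤ 1 := inv_le_one_of_one_le₀ ht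
    have h5 : t⁻¹ * t⁻¹ ≤ 1 := by
      have : 0 ≤ t⁻¹ := by positivity
      nlinarith
    have h6 : t⁻¹ * t⁻¹ * ‖d‖ ≤ ‖d‖ := by
      have := norm_nonneg d
      nlinarith
    have h7 : t * ‖a‖ ≤ t * t * ‖a‖ := by
      have := norm_nonneg a
      have h8 : 0 ≤ t * ‖a‖ := by positivity
      nlinarith
    linarith
  by_contra hne
  have hpos : 0 < ‖a‖ := norm_pos_iff.2 hne
  set B := C + ‖b‖ + ‖d‖ with hB
  have h1 := bound (|B| / ‖a‖ + 1) (by have : 0 ≤ |B| / ‖a‖ := by positivity
                                       linarith)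
  have h2 : (|B| / ‖a‖ + 1) * ‖a‖ = |B| + ‖a‖ := by field_simp
  rw [h2] at h1
  have := le_abs_self B
  linarith

theorem form_single {n : ℕ} (p : Fin n) (u : Hq) (z : Fin n → Hq) :
    form phi0 (Pi.single p u) z = phi0 u * z p := by
  unfold form
  rw [Finset.sum_eq_single p]
  · simp
  · intro b _ hb
    simp [Pi.single_eq_of_ne hb]
  · intro h
    exact absurd (Finset.mem_univ p) h

theorem mulVec_single' {n : ℕ} (A : Matrix (Fin n) (Fin n) Hq) (r p : Fin n) (v : Hq) :
    A.mulVec (Pi.single r v) p = A p r * v := by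
  simp [Matrix.mulVec, dotProduct, Pi.single_apply]

/-- consequences for two coordinates -/
theorem pair {n : ℕ} (A : Matrix (Fin n) (Fin n) Hq)
    (h : ∀ y : Fin n → Hq, form phi0 y y = 0 → form phi0 y (A.mulVec y) = 0) (p r : Fin n)
    (hpr : p ≠ r) (v : Hq) (hv : phi0 v * v = -1) :
    A p p + phi0 v * A r r * v = 0 ∧ A p r * v + phi0 v * A r p = 0 := by
  have gen : ∀ v : Hq, phi0 v * v = -1 →
      A p p + A p r * v + (phi0 v * A r p + phi0 v * A r r * v) = 0 := by
    intro v hv
    have h1 := h (Pi.single p 1 + Pi.single r v) (by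
      rw [form_add_left, form_single, form_single]
      have e1 : phi0 1 = 1 := by ext <;> simp
      simp [Pi.single_eq_of_ne hpr, Pi.single_eq_of_ne hpr.symm, e1, hv])
    rw [Matrix.mulVec_add, form_add_left, form_add_right, form_add_right] at h1
    simp only [form_single, mulVec_single'] at h1
    have e1 : phi0 1 = 1 := by ext <;> simp
    rw [e1] at h1
    simpa [mul_assoc] using h1
  have h1 := gen v hv
  have h2 := gen (-v) (by simp [hv])
  simp only [map_neg, mul_neg, neg_mul, neg_neg] at h2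
  constructor
  · have h3 : (2 : ℝ) • (A p p + phi0 v * A r r * v) = 0 := by
      rw [two_smul]
      have := congrArg₂ (· + ·) h1 h2
      simp only [add_zero] at this
      rw [← this]
      abel
    exact (smul_eq_zero.1 h3).resolve_left (by norm_num)
  · have h3 : (2 : ℝ) • (A p r * v + phi0 v * A r p) = 0 := by
      rw [two_smul]
      have := congrArg₂ (· - ·) h1 h2
      simp only [sub_zero] at this
      rw [← this]
      abel
    exact (smul_eq_zero.1 h3).resolve_left (by norm_num)

theorem pair' {n : ℕ} (A : Matrix (Fin n) (Fin n) Hq)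
    (h : ∀ y : Fin n → Hq, form phi0 y y = 0 → form phi0 y (A.mulVec y) = 0) (p r : Fin n)
    (hpr : p ≠ r) :
    (A r r).imJ = 0 ∧ (A r r).imK = 0 ∧ (A p r).imJ = 0 ∧ (A p r).imK = 0 ∧
      A r r = star (A p p) ∧ A r p = -star (A p r) := by
  have hj : phi0 qj * qj = -1 := by ext <;> simp
  have hk : phi0 qk * qk = -1 := by ext <;> simp
  obtain ⟨a1, a2⟩ := pair A h p r hpr qj hj
  obtain ⟨b1, b2⟩ := pair A h p r hpr qk hk
  have c1 := congrArg (fun z : Hq => z.re) a1
  have c2 := congrArg (fun z : Hq => z.imI) a1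
  have c3 := congrArg (fun z : Hq => z.imJ) a1
  have c4 := congrArg (fun z : Hq => z.imK) a1
  have d1 := congrArg (fun z : Hq => z.re) a2
  have d2 := congrArg (fun z : Hq => z.imI) a2
  have d3 := congrArg (fun z : Hq => z.imJ) a2
  have d4 := congrArg (fun z : Hq => z.imK) a2
  have e1 := congrArg (fun z : Hq => z.re) b1
  have e2 := congrArg (fun z : Hq => z.imI) b1
  have e3 := congrArg (fun z : Hq => z.imJ) b1
  have e4 := congrArg (fun z : Hq => z.imK) b1
  have f1 := congrArg (fun z : Hq => z.re) b2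
  have f2 := congrArg (fun z : Hq => z.imI) b2
  have f3 := congrArg (fun z : Hq => z.imJ) b2
  have f4 := congrArg (fun z : Hq => z.imK) b2
  simp at c1 c2 c3 c4 d1 d2 d3 d4 e1 e2 e3 e4 f1 f2 f3 f4
  refine ⟨by linarith, by linarith, by linarith, by linarith, ?_, ?_⟩
  · ext <;> simp <;> linarith
  · ext <;> simp <;> linarith

/-- consequences for three coordinates -/
theorem triple {n : ℕ} (A : Matrix (Fin n) (Fin n) Hq)
    (h : ∀ y : Fin n → Hq, form phi0 y y = 0 → form phi0 y (A.mulVec y) = 0) (p r s : Fin n)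
    (hpr : p ≠ r) (hps : p ≠ s) (hrs : r ≠ s) (w v : Hq) (hw : 1 + phi0 w * w + phi0 v * v = 0) :
    A p p + phi0 w * A r r * w + phi0 v * A s s * v + A p r * w + phi0 w * A r p = 0 := by
  have e1 : phi0 1 = 1 := by ext <;> simp
  have gen : ∀ v : Hq, 1 + phi0 w * w + phi0 v * v = 0 →
      (A p p + A p r * w + A p s * v) + (phi0 w * A r p + phi0 w * A r r * w + phi0 w * A r s * v) +
        (phi0 v * A s p + phi0 v * A s r * w + phi0 v * A s s * v) = 0 := by
    intro v hv
    have h1 := h (Pi.single p 1 + Pi.single r w + Pi.single s v) (by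
      simp only [form_add_left, form_single, Pi.add_apply]
      simp only [Pi.single_eq_same, Pi.single_eq_of_ne hpr, Pi.single_eq_of_ne hpr.symm,
        Pi.single_eq_of_ne hps, Pi.single_eq_of_ne hps.symm, Pi.single_eq_of_ne hrs,
        Pi.single_eq_of_ne hrs.symm, e1, mul_one, add_zero, zero_add]
      exact hv)
    rw [Matrix.mulVec_add, Matrix.mulVec_add] at h1
    simp only [form_add_left, form_add_right, form_single, mulVec_single', e1, one_mul, mul_one,
      ← mul_assoc] at h1
    rw [← h1]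
    abel
  have h1 := gen v hw
  have h2 := gen (-v) (by simpa using hw)
  simp only [map_neg, mul_neg, neg_mul, neg_neg] at h2
  have h3 : (2 : ℝ) • (A p p + phi0 w * A r r * w + phi0 v * A s s * v + A p r * w +
      phi0 w * A r p) = 0 := by
    rw [two_smul]
    have := congrArg₂ (· + ·) h1 h2
    simp only [add_zero] at this
    rw [← this]
    abel
  exact (smul_eq_zero.1 h3).resolve_left (by norm_num)

theorem triple' {n : ℕ} (A : Matrix (Fin n) (Fin n) Hq)
    (h : ∀ y : Fin n → Hq, form phi0 y y = 0 → form phi0 y (A.mulVec y) = 0) (p r s : Fin n)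
    (hpr : p ≠ r) (hps : p ≠ s) (hrs : r ≠ s) :
    A p p = A r r ∧ A p p = ((A p p).re : Hq) ∧ A p r = 0 := by
  obtain ⟨-, -, -, -, a1, a2⟩ := pair' A h p r hpr
  obtain ⟨-, -, -, -, b1, b2⟩ := pair' A h r s hrs
  obtain ⟨c3, c4, c5, c6, c1, c2⟩ := pair' A h p s hps
  obtain ⟨d3, d4, d5, d6, -, -⟩ := pair' A h p r hpr
  -- `A p p` is real
  have h1 : star (A r r) = star (A p p) := by rw [← b1, ← c1]
  have h2 : A r r = A p p := star_injective h1
  have h3 : A p p = star (A p p) := by rw [← a1, h2]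
  have hreal : A p p = ((A p p).re : Hq) := by
    have e2 := congrArg (fun z : Hq => z.imI) h3
    have e3 := congrArg (fun z : Hq => z.imJ) h3
    have e4 := congrArg (fun z : Hq => z.imK) h3
    simp at e2 e3 e4
    ext <;> simp <;> linarith
  set a := (A p p).re with ha
  have hr : A r r = (a : Hq) := by rw [h2, hreal]
  have hs : A s s = (a : Hq) := by rw [c1, hreal]; simp
  have h4 := triple A h p r s hpr hps hrs 1 (√2 • qj) (by
    have e1 : (√2 : ℝ) * √2 = 2 := Real.mul_self_sqrt (by norm_num)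
    ext <;> simp
    linarith)
  have h5 := triple A h p r s hpr hps hrs qi (√2 • qj) (by
    have e1 : (√2 : ℝ) * √2 = 2 := Real.mul_self_sqrt (by norm_num)
    ext <;> simp
    linarith)
  rw [hreal, hr, hs, a2] at h4 h5
  have f1 := congrArg (fun z : Hq => z.imI) h4
  have f2 := congrArg (fun z : Hq => z.imI) h5
  simp at f1 f2
  refine ⟨h2.symm, hreal, ?_⟩
  ext <;> simp <;> linarith

theorem phi0_star_iff (x : Hq) : phi0 x = star x ↔ x.imJ = 0 ∧ x.imK = 0 := by
  constructor
  · intro h
    have h3 := congrArg (fun z : Hq => z.imJ) h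
    have h4 := congrArg (fun z : Hq => z.imK) h
    simp at h3 h4
    constructor <;> linarith
  · rintro ⟨h1, h2⟩
    ext <;> simp [h1, h2]

theorem case_one (α : Hq) (A : Matrix (Fin 1) (Fin 1) Hq) : Bornology.IsBounded (W phi0 α A) := by
  rw [isBounded_iff_forall_norm_le]
  refine ⟨‖A 0 0‖ * ‖α‖, ?_⟩
  rintro w ⟨x, hx, rfl⟩
  have h1 : ‖phi0 (x 0)‖ = ‖x 0‖ := by
    have h3 : Quaternion.normSq (phi0 (x 0)) = Quaternion.normSq (x 0) := by
      rw [Quaternion.normSq_def', Quaternion.normSq_def']; simp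
    rw [Quaternion.normSq_eq_norm_mul_self, Quaternion.normSq_eq_norm_mul_self] at h3
    exact (mul_self_inj (norm_nonneg _) (norm_nonneg _)).1 h3
  have h2 : ‖α‖ = ‖x 0‖ * ‖x 0‖ := by
    rw [← hx]
    simp [form, norm_mul, h1]
  have h4 : form phi0 x (A.mulVec x) = phi0 (x 0) * (A 0 0 * x 0) := by
    simp [form, Matrix.mulVec, dotProduct]
  rw [h4, norm_mul, norm_mul, h1, h2]
  apply le_of_eq
  ring

theorem case_two_suff (α : Hq) (A : Matrix (Fin 2) (Fin 2) Hq) (a b : Hq) (ha : phi0 a = star a)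
    (hb : phi0 b = star b) (hA : A = !![a, b; -star b, star a]) :
    Bornology.IsBounded (W phi0 α A) := by
  rw [phi0_star_iff] at ha hb
  obtain ⟨a2, a3⟩ := ha
  obtain ⟨b2, b3⟩ := hb
  rw [isBounded_iff_forall_norm_le]
  refine ⟨|a.re| * ‖α‖ + (|a.imI| + |b.imI| + |b.re|) * ‖α‖, ?_⟩
  rintro w ⟨x, hx, rfl⟩
  set P : ℝ := Quaternion.normSq (x 0) - Quaternion.normSq (x 1) with hP
  set R1 : ℝ := 2 * (star (x 0) * x 1).re with hR1
  set R2 : ℝ := 2 * (star (x 0) * qi * x 1).re with hR2
  have hx' : phi0 (x 0) * x 0 + phi0 (x 1) * x 1 = α := by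
    rw [← hx]; simp [form, Fin.sum_univ_two]
  have hval : form phi0 x (A.mulVec x) = a.re • α + (a.imI * P + b.imI * R1 - b.re * R2) • qi := by
    have e1 : form phi0 x (A.mulVec x) = phi0 (x 0) * (a * x 0 + b * x 1) +
        phi0 (x 1) * (-star b * x 0 + star a * x 1) := by
      simp [form, Matrix.mulVec, dotProduct, Fin.sum_univ_two, hA]
    rw [e1, ← hx', hP, hR1, hR2, Quaternion.normSq_def', Quaternion.normSq_def']
    ext <;> simp [a2, a3, b2, b3] <;> ring
  have hid : P ^ 2 + R1 ^ 2 + R2 ^ 2 = ‖α‖ ^ 2 := by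
    have e1 : ‖α‖ ^ 2 = Quaternion.normSq α := by rw [Quaternion.normSq_eq_norm_mul_self]; ring
    rw [e1, ← hx', hP, hR1, hR2, Quaternion.normSq_def', Quaternion.normSq_def',
      Quaternion.normSq_def']
    simp
    ring
  have hn := norm_nonneg α
  have bP : |P| ≤ ‖α‖ := abs_le_of_sq_le_sq (by nlinarith [sq_nonneg R1, sq_nonneg R2]) hn
  have bR1 : |R1| ≤ ‖α‖ := abs_le_of_sq_le_sq (by nlinarith [sq_nonneg P, sq_nonneg R2]) hn
  have bR2 : |R2| ≤ ‖α‖ := abs_le_of_sq_le_sq (by nlinarith [sq_nonneg R1, sq_nonneg P]) hn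
  have hqi : ‖qi‖ = 1 := by
    have h1 : ‖qi‖ * ‖qi‖ = 1 := by
      rw [← Quaternion.normSq_eq_norm_mul_self, Quaternion.normSq_def']; simp
    nlinarith [norm_nonneg qi]
  rw [hval]
  refine (norm_add_le _ _).trans ?_
  rw [norm_smul, norm_smul, hqi, mul_one, Real.norm_eq_abs, Real.norm_eq_abs]
  have h1 : |a.imI * P + b.imI * R1 - b.re * R2| ≤ |a.imI| * |P| + |b.imI| * |R1| + |b.re| * |R2| := by
    refine (abs_sub _ _).trans ?_
    rw [abs_mul b.re]
    have := abs_add_le (a.imI * P) (b.imI * R1)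
    rw [abs_mul, abs_mul] at this
    linarith
  have h2 : |a.imI| * |P| ≤ |a.imI| * ‖α‖ := mul_le_mul_of_nonneg_left bP (abs_nonneg _)
  have h3 : |b.imI| * |R1| ≤ |b.imI| * ‖α‖ := mul_le_mul_of_nonneg_left bR1 (abs_nonneg _)
  have h4 : |b.re| * |R2| ≤ |b.re| * ‖α‖ := mul_le_mul_of_nonneg_left bR2 (abs_nonneg _)
  nlinarith

theorem case_two (α : Hq) (hα : phi0 α = α) (A : Matrix (Fin 2) (Fin 2) Hq) :
    Bornology.IsBounded (W phi0 α A) ↔
      ∃ a b : Hq, phi0 a = star a ∧ phi0 b = star b ∧ A = !![a, b; -star b, star a] := by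
  constructor
  · intro hb
    have h := isotropic α hα A hb
    obtain ⟨-, -, c3, c4, c5, c6⟩ := pair' A h 0 1 (by decide)
    obtain ⟨d1, d2, -, -, -, -⟩ := pair' A h 1 0 (by decide)
    refine ⟨A 0 0, A 0 1, (phi0_star_iff _).2 ⟨d1, d2⟩, (phi0_star_iff _).2 ⟨c3, c4⟩, ?_⟩
    ext1 i j
    fin_cases i <;> fin_cases j <;> simp [c5, c6]
  · rintro ⟨a, b, ha, hb, hA⟩
    exact case_two_suff α A a b ha hb hA

theorem case_ge_three (α : Hq) (hα : phi0 α = α) {n : ℕ} (hn : 3 ≤ n)
    (A : Matrix (Fin n) (Fin n) Hq) :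
    Bornology.IsBounded (W phi0 α A) ↔ ∃ r : ℝ, A = Matrix.diagonal fun _ => (r : Hq) := by
  constructor
  · intro hb
    have h := isotropic α hα A hb
    let i0 : Fin n := ⟨0, by omega⟩
    have hthird : ∀ p r : Fin n, ∃ s, p ≠ s ∧ r ≠ s := by
      intro p r
      by_contra hc
      push Not at hc
      have h1 : (Finset.univ : Finset (Fin n)) ⊆ {p, r} := by
        intro s _
        by_cases hs : p = s
        · simp [hs]
        · simp [hc s hs]
      have h2 := Finset.card_le_card h1
      have h3 : ({p, r} : Finset (Fin n)).card ≤ 2 := Finset.card_le_two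
      simp at h2
      omega
    refine ⟨(A i0 i0).re, ?_⟩
    ext1 p r
    by_cases hpr : p = r
    · subst hpr
      rw [Matrix.diagonal_apply_eq]
      by_cases hp : p = i0
      · subst hp
        obtain ⟨r, hr, -⟩ := hthird i0 i0
        obtain ⟨s, hs1, hs2⟩ := hthird i0 r
        exact (triple' A h i0 r s hr hs1 hs2).2.1
      · obtain ⟨s, hs1, hs2⟩ := hthird i0 p
        obtain ⟨h1, h2, -⟩ := triple' A h i0 p s (Ne.symm hp) hs1 hs2
        rw [← h1]
        exact h2
    · rw [Matrix.diagonal_apply_ne _ hpr]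
      obtain ⟨s, hs1, hs2⟩ := hthird p r
      exact (triple' A h p r s hpr hs1 hs2).2.2
  · rintro ⟨r, rfl⟩
    rw [isBounded_iff_forall_norm_le]
    refine ⟨‖r • α‖, ?_⟩
    rintro w ⟨x, hx, rfl⟩
    apply le_of_eq
    congr 1
    rw [← hx]
    simp only [form, Finset.smul_sum]
    refine Finset.sum_congr rfl fun i _ => ?_
    rw [Matrix.mulVec_diagonal, Quaternion.coe_mul_eq_smul, mul_smul_comm]

/-! ### Transport to an arbitrary nonstandard involution -/

section transport

variable (φ : Hq →ₗ[ℝ] Hq) (g : Hq) (h1 : g * star g = 1) (h2 : star g * g = 1)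
  (hφ : ∀ x, φ x = star g * phi0 (g * x * star g) * g)

omit h2 in
include h1 hφ in
theorem conj_form {n : ℕ} (x y : Fin n → Hq) :
    g * form φ x y * star g =
      form phi0 (fun i => g * x i * star g) (fun i => g * y i * star g) := by
  simp only [form, Finset.mul_sum, Finset.sum_mul]
  refine Finset.sum_congr rfl fun i _ => ?_
  rw [hφ]
  calc g * (star g * phi0 (g * x i * star g) * g * y i) * star g
      = (g * star g) * phi0 (g * x i * star g) * (g * y i * star g) := by simp only [mul_assoc]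
    _ = _ := by rw [h1, one_mul]

omit h1 hφ in
include h2 in
theorem conj_mulVec {n : ℕ} (A : Matrix (Fin n) (Fin n) Hq) (x : Fin n → Hq) :
    (fun i => g * (A.mulVec x) i * star g) =
      (A.map fun z => g * z * star g).mulVec (fun i => g * x i * star g) := by
  funext i
  simp only [Matrix.mulVec, dotProduct, Finset.mul_sum, Finset.sum_mul, Matrix.map_apply]
  refine Finset.sum_congr rfl fun j _ => ?_
  calc g * (A i j * x j) * star g = g * A i j * 1 * (x j * star g) := by simp only [mul_assoc, mul_one]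
    _ = g * A i j * (star g * g) * (x j * star g) := by rw [h2]
    _ = _ := by simp only [mul_assoc]

omit h2 hφ in
include h1 in
theorem norm_conj (w : Hq) : ‖g * w * star g‖ = ‖w‖ := by
  have h3 : ‖g‖ * ‖star g‖ = 1 := by rw [← norm_mul, h1, norm_one]
  rw [norm_mul, norm_mul]
  calc ‖g‖ * ‖w‖ * ‖star g‖ = ‖w‖ * (‖g‖ * ‖star g‖) := by ring
    _ = ‖w‖ := by rw [h3, mul_one]

include h1 h2 hφ in
theorem conj_W {n : ℕ} (α : Hq) (A : Matrix (Fin n) (Fin n) Hq) :
    Bornology.IsBounded (W φ α A) ↔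
      Bornology.IsBounded (W phi0 (g * α * star g) (A.map fun z => g * z * star g)) := by
  have hinv : ∀ w : Hq, g * (star g * w * g) * star g = w := by
    intro w
    calc g * (star g * w * g) * star g = (g * star g) * w * (g * star g) := by simp only [mul_assoc]
      _ = w := by rw [h1, one_mul, mul_one]
  have hinv' : ∀ w : Hq, star g * (g * w * star g) * g = w := by
    intro w
    calc star g * (g * w * star g) * g = (star g * g) * w * (star g * g) := by simp only [mul_assoc]
      _ = w := by rw [h2, one_mul, mul_one]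
  rw [isBounded_iff_forall_norm_le, isBounded_iff_forall_norm_le]
  constructor
  · rintro ⟨C, hC⟩
    refine ⟨C, ?_⟩
    rintro w ⟨x, hx, rfl⟩
    set x' : Fin n → Hq := fun i => star g * x i * g with hx'
    have e0 : (fun i => g * x' i * star g) = x := by funext i; exact hinv (x i)
    have e1 : form phi0 x ((A.map fun z => g * z * star g).mulVec x) =
        g * form φ x' (A.mulVec x') * star g := by
      rw [conj_form φ g h1 hφ, conj_mulVec g h2, e0]
    have e2 : form φ x' x' = α := by
      have e3 := conj_form φ g h1 hφ x' x'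
      rw [e0, hx] at e3
      have e4 := congrArg (fun w => star g * w * g) e3
      simpa only [hinv'] using e4
    rw [e1, norm_conj g h1]
    exact hC _ ⟨x', e2, rfl⟩
  · rintro ⟨C, hC⟩
    refine ⟨C, ?_⟩
    rintro w ⟨x, hx, rfl⟩
    rw [← norm_conj g h1, conj_form φ g h1 hφ, conj_mulVec g h2]
    refine hC _ ⟨_, ?_, rfl⟩
    rw [← conj_form φ g h1 hφ, hx]

end transport

/-- **The matrices `A` with bounded `W_φ^(α)(A)`, for a nonstandard involution `φ` and
`0 ≠ α ∈ Inv(φ)`.** For `n = 1` all matrices; for `n = 2` exactly the matrices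
`(a, b; -b^*, a^*)` with `φ(a) = a^*`, `φ(b) = b^*`; for `n ≥ 3` exactly the real scalar matrices. -/
theorem result (φ : Hq →ₗ[ℝ] Hq) (hφ : Nonstandard φ) (α : Hq) (hα : φ α = α) (_hα0 : α ≠ 0) :
    (∀ A : Matrix (Fin 1) (Fin 1) Hq, Bornology.IsBounded (W φ α A)) ∧
    (∀ A : Matrix (Fin 2) (Fin 2) Hq, Bornology.IsBounded (W φ α A) ↔
      ∃ a b : Hq, φ a = star a ∧ φ b = star b ∧ A = !![a, b; -star b, star a]) ∧
    (∀ (n : ℕ), 3 ≤ n → ∀ A : Matrix (Fin n) (Fin n) Hq, Bornology.IsBounded (W φ α A) ↔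
      ∃ r : ℝ, A = Matrix.diagonal fun _ => (r : Hq)) := by
  obtain ⟨g, h1, h2, hg⟩ := exists_g φ hφ
  have hinv : ∀ w : Hq, g * (star g * w * g) * star g = w := by
    intro w
    calc g * (star g * w * g) * star g = (g * star g) * w * (g * star g) := by simp only [mul_assoc]
      _ = w := by rw [h1, one_mul, mul_one]
  have hinv' : ∀ w : Hq, star g * (g * w * star g) * g = w := by
    intro w
    calc star g * (g * w * star g) * g = (star g * g) * w * (star g * g) := by simp only [mul_assoc]
      _ = w := by rw [h2, one_mul, mul_one]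
  have hα' : phi0 (g * α * star g) = g * α * star g := by
    have e1 := hg α
    rw [hα] at e1
    have e2 : g * α * star g = g * (star g * phi0 (g * α * star g) * g) * star g := by rw [← e1]
    rw [hinv] at e2
    exact e2.symm
  have hstar : ∀ a : Hq, φ a = star a ↔ phi0 (g * a * star g) = star (g * a * star g) := by
    intro a
    have e0 : star (g * a * star g) = g * star a * star g := by
      rw [star_mul, star_mul, star_star, mul_assoc]
    rw [e0, hg a]
    constructor
    · intro h
      rw [← h, hinv]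
    · intro h
      rw [h, hinv']
  refine ⟨fun A => ?_, fun A => ?_, fun n hn A => ?_⟩
  · rw [conj_W φ g h1 h2 hg]
    exact case_one _ _
  · rw [conj_W φ g h1 h2 hg, case_two _ hα']
    constructor
    · rintro ⟨a, b, ha, hb, hA⟩
      refine ⟨star g * a * g, star g * b * g, ?_, ?_, ?_⟩
      · rw [hstar, hinv]; exact ha
      · rw [hstar, hinv]; exact hb
      · ext1 i j
        have e1 := congrFun (congrFun hA i) j
        rw [Matrix.map_apply] at e1
        have e2 : A i j = star g * (!![a, b; -star b, star a] i j) * g := by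
          rw [← e1, hinv']
        rw [e2]
        fin_cases i <;> fin_cases j <;> simp [mul_assoc]
    · rintro ⟨a, b, ha, hb, hA⟩
      refine ⟨g * a * star g, g * b * star g, (hstar a).1 ha, (hstar b).1 hb, ?_⟩
      ext1 i j
      rw [Matrix.map_apply, hA]
      fin_cases i <;> fin_cases j <;> simp [mul_assoc]
  · rw [conj_W φ g h1 h2 hg, case_ge_three _ hα' hn]
    have hreal : ∀ r : ℝ, g * (r : Hq) * star g = (r : Hq) := by
      intro r
      rw [← Quaternion.coe_commutes, mul_assoc, h1, mul_one]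
    constructor
    · rintro ⟨r, hA⟩
      refine ⟨r, ?_⟩
      ext1 i j
      have e1 := congrFun (congrFun hA i) j
      rw [Matrix.map_apply] at e1
      rw [← hinv' (A i j), e1]
      by_cases hij : i = j
      · subst hij
        rw [Matrix.diagonal_apply_eq, ← hreal r, hinv', hreal]
      · rw [Matrix.diagonal_apply_ne _ hij]
        simp
    · rintro ⟨r, hA⟩
      refine ⟨r, ?_⟩
      ext1 i j
      rw [Matrix.map_apply, hA]
      by_cases hij : i = j
      · subst hij
        rw [Matrix.diagonal_apply_eq, hreal]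
      · rw [Matrix.diagonal_apply_ne _ hij]
        simp

end

end Pool.Agent.Results.MP_dceaed_al.BoundedRanges
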