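import Pool.Agent.R880.QNR2

/-! Let `φ` be a nonstandard involution of the real quaternions and `φ(α) = α`. All quaternion
matrices with a bounded `φ`-numerical range `W_φ^(α)(A)` are determined. -/

set_option linter.unusedVariables false

namespace Pool.Agent.Results.MP_dceaed_al.NonzeroAlpha

open Quaternion Pool.Agent.R880.QNR

/-- `x_φ A x`, where `x_φ` is the row with the entries `φ(x_i)`. -/
noncomputable def form (φ : ℍ[ℝ] →ₗ[ℝ] ℍ[ℝ]) {n : ℕ} (A : Matrix (Fin n) (Fin n) ℍ[ℝ])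
    (x : Fin n → ℍ[ℝ]) : ℍ[ℝ] := ∑ i, ∑ j, φ (x i) * A i j * x j

/-- The `φ`-numerical range: all `x_φ A x` with `x_φ x = α`. -/
def W (φ : ℍ[ℝ] →ₗ[ℝ] ℍ[ℝ]) (α : ℍ[ℝ]) {n : ℕ} (A : Matrix (Fin n) (Fin n) ℍ[ℝ]) :
    Set ℍ[ℝ] := {w | ∃ x : Fin n → ℍ[ℝ], ∑ i, φ (x i) * x i = α ∧ form φ A x = w}

lemma transfer {φ : ℍ[ℝ] →ₗ[ℝ] ℍ[ℝ]} {τ : ℍ[ℝ] ≃ₐ[ℝ] ℍ[ℝ]} (h1 : ∀ x, φ (τ x) = τ (phi0 x))
    (h2 : ∀ x, ‖τ x‖ = ‖x‖) (α : ℍ[ℝ]) {n : ℕ} (A : Matrix (Fin n) (Fin n) ℍ[ℝ]) :
    Bornology.IsBounded (W φ α A) ↔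
      ∃ C : ℝ, ∀ y, h y y = τ.symm α → ‖B (A.map τ.symm) y y‖ ≤ C := by
  have e1 : ∀ y : Fin n → ℍ[ℝ], ∑ i, φ (τ (y i)) * τ (y i) = τ (h y y) := by
    intro y
    unfold h
    rw [map_sum]
    simp only [map_mul, h1]
  have e2 : ∀ y : Fin n → ℍ[ℝ], form φ A (fun i => τ (y i)) = τ (B (A.map τ.symm) y y) := by
    intro y
    unfold form B
    simp only [map_sum, map_mul, h1, Matrix.map_apply, AlgEquiv.apply_symm_apply]
  rw [isBounded_iff_forall_norm_le]
  constructor
  · rintro ⟨C, hC⟩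
    refine ⟨C, fun y hy => ?_⟩
    have := hC (form φ A (fun i => τ (y i))) ⟨fun i => τ (y i), by
      rw [e1, hy, AlgEquiv.apply_symm_apply], rfl⟩
    rwa [e2, h2] at this
  · rintro ⟨C, hC⟩
    refine ⟨C, ?_⟩
    rintro w ⟨x, hx, rfl⟩
    have e3 : x = fun i => τ (τ.symm (x i)) := by simp
    rw [e3, e2, h2]
    refine hC _ ?_
    apply τ.injective
    rw [← e1, AlgEquiv.apply_symm_apply, ← hx]
    simp

/-- Let `φ` be a nonstandard involution of the real quaternions and let `φ(α) = α`. For `n = 1`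
all sets `W_φ^(α)(A)` are bounded. For `n = 2` the set `W_φ^(α)(A)` is bounded if and only if
`A = (p, q; -q*, p*)` where `p` and `q` satisfy `φ(p) = p*` and `φ(q) = q*`. For `n ≥ 3` it is
bounded if and only if `A` is a real multiple of the identity matrix. -/
theorem result (φ : ℍ[ℝ] →ₗ[ℝ] ℍ[ℝ]) (hanti : ∀ x y, φ (x * y) = φ y * φ x)
    (hinv : ∀ x, φ (φ x) = x) (hns : ∃ x, φ x ≠ star x) (α : ℍ[ℝ]) (hα : φ α = α) :
    (∀ A : Matrix (Fin 1) (Fin 1) ℍ[ℝ], Bornology.IsBounded (W φ α A)) ∧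
    (∀ A : Matrix (Fin 2) (Fin 2) ℍ[ℝ], Bornology.IsBounded (W φ α A) ↔
      ∃ p q : ℍ[ℝ], φ p = star p ∧ φ q = star q ∧ A = !![p, q; -star q, star p]) ∧
    (∀ n : ℕ, 3 ≤ n → ∀ A : Matrix (Fin n) (Fin n) ℍ[ℝ], Bornology.IsBounded (W φ α A) ↔
      ∃ a : ℝ, A = a • (1 : Matrix (Fin n) (Fin n) ℍ[ℝ])) := by
  obtain ⟨τ, t1, t2, t3⟩ := exists_tau φ hanti hinv hns
  have hα' : phi0 (τ.symm α) = τ.symm α := by
    apply τ.injective
    rw [← t1, AlgEquiv.apply_symm_apply, hα]
  have hsymm : ∀ x, star (τ.symm x) = τ.symm (star x) := by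
    intro x
    apply τ.injective
    rw [← t2, AlgEquiv.apply_symm_apply, AlgEquiv.apply_symm_apply]
  have hchar : ∀ a : ℍ[ℝ], φ a = star a ↔ (τ.symm a).imJ = 0 ∧ (τ.symm a).imK = 0 := by
    intro a
    have e0 : τ (phi0 (τ.symm a)) = φ a := by rw [← t1, AlgEquiv.apply_symm_apply]
    have e0' : τ (star (τ.symm a)) = star a := by rw [← t2, AlgEquiv.apply_symm_apply]
    have e1 : φ a = star a ↔ phi0 (τ.symm a) = star (τ.symm a) := by
      constructor
      · intro he
        apply τ.injective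
        rw [e0, e0', he]
      · intro he
        rw [← e0, ← e0', he]
    rw [e1, Quaternion.ext_iff]
    simp only [phi0_re, phi0_imI, phi0_imJ, phi0_imK, Quaternion.re_star, Quaternion.imI_star,
      Quaternion.imJ_star, Quaternion.imK_star, true_and]
    constructor
    · rintro ⟨a, b⟩; exact ⟨by linarith, by linarith⟩
    · rintro ⟨a, b⟩; exact ⟨by linarith, by linarith⟩
  refine ⟨?_, ?_, ?_⟩
  · intro A
    rw [transfer t1 t3]
    refine ⟨‖A.map τ.symm 0 0‖ * ‖τ.symm α‖, fun y hy => ?_⟩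
    have e1 : h y y = phi0 (y 0) * y 0 := by simp [h]
    have e2 : B (A.map τ.symm) y y = phi0 (y 0) * A.map τ.symm 0 0 * y 0 := by simp [B]
    rw [e2, ← hy, e1, norm_mul, norm_mul, norm_mul]
    exact le_of_eq (by ring)
  · intro A
    rw [transfer t1 t3]
    constructor
    · rintro ⟨C, hC⟩
      obtain ⟨a1, a2, a3, a4, a5, a6⟩ := pair_coord (A.map τ.symm)
        (form_zero _ _ hα' C hC) 1 0 (by decide)
      obtain ⟨b1, b2, b3, b4, b5, b6⟩ := pair_coord (A.map τ.symm)
        (form_zero _ _ hα' C hC) 0 1 (by decide)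
      simp only [Matrix.map_apply] at a1 a2 a3 a4 a5 a6 b3 b4 b6
      rw [hsymm] at a5
      rw [hsymm, ← map_neg] at b6
      refine ⟨A 0 0, A 0 1, (hchar _).2 ⟨a1, a2⟩, (hchar _).2 ⟨b3, b4⟩, ?_⟩
      have c1 := τ.symm.injective a5
      have c2 := τ.symm.injective b6
      refine Matrix.ext fun i j => ?_
      fin_cases i <;> fin_cases j
      · rfl
      · rfl
      · exact c2
      · exact c1
    · rintro ⟨p, q, hp, hq, rfl⟩
      obtain ⟨p1, p2⟩ := (hchar p).1 hp
      obtain ⟨q1, q2⟩ := (hchar q).1 hq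
      refine ⟨(|(τ.symm p).re| + |(τ.symm p).imI| + |(τ.symm q).imI| + |(τ.symm q).re|) *
        ‖τ.symm α‖, fun y hy => ?_⟩
      have key := two_bound (τ.symm p).imI (τ.symm p).re (τ.symm q).imI (τ.symm q).re (y 0) (y 1)
      have e1 : phi0 (y 0) * y 0 + phi0 (y 1) * y 1 = τ.symm α := by
        rw [← hy]; simp [h, Fin.sum_univ_two]
      have e2 : qt (τ.symm p).re (τ.symm p).imI 0 0 = τ.symm p := by
        ext <;> simp [p1, p2]
      have e3 : qt (τ.symm q).re (τ.symm q).imI 0 0 = τ.symm q := by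
        ext <;> simp [q1, q2]
      have e4 : qt (-(τ.symm q).re) (τ.symm q).imI 0 0 = -star (τ.symm q) := by
        ext <;> simp [q1, q2]
      have e5 : qt (τ.symm p).re (-(τ.symm p).imI) 0 0 = star (τ.symm p) := by
        ext <;> simp [p1, p2]
      rw [e1, e2, e3, e4, e5] at key
      refine le_trans (le_of_eq ?_) key
      congr 1
      simp [B, Fin.sum_univ_two, hsymm, map_neg]
  · intro n hn A
    rw [transfer t1 t3]
    constructor
    · rintro ⟨C, hC⟩
      have hz := form_zero (A.map τ.symm) _ hα' C hC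
      have hex : ∀ i j : Fin n, ∃ k, i ≠ k ∧ j ≠ k := by
        intro i j
        have : ∃ k ∈ (Finset.univ : Finset (Fin n)), k ∉ ({i, j} : Finset (Fin n)) := by
          apply Finset.exists_mem_notMem_of_card_lt_card
          rw [Finset.card_univ, Fintype.card_fin]
          exact lt_of_le_of_lt Finset.card_le_two (by omega)
        obtain ⟨k, _, hk⟩ := this
        simp only [Finset.mem_insert, Finset.mem_singleton, not_or] at hk
        exact ⟨k, Ne.symm hk.1, Ne.symm hk.2⟩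
      have hoff : ∀ i j : Fin n, i ≠ j → A i j = 0 ∧ A i i = A j j := by
        intro i j hij
        obtain ⟨k, hik, hjk⟩ := hex i j
        obtain ⟨c1, c2, _⟩ := off_zero _ hz i j k hij hik hjk
        simp only [Matrix.map_apply] at c1 c2
        refine ⟨τ.symm.injective (by rw [c1, map_zero]), τ.symm.injective c2⟩
      let i0 : Fin n := ⟨0, by omega⟩
      let i1 : Fin n := ⟨1, by omega⟩
      have hi01 : i0 ≠ i1 := by simp [i0, i1, Fin.ext_iff]
      obtain ⟨k, hik, hjk⟩ := hex i0 i1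
      obtain ⟨_, _, c3, c4, c5⟩ := off_zero _ hz i0 i1 k hi01 hik hjk
      simp only [Matrix.map_apply] at c3 c4 c5
      have hd : A i0 i0 = ((τ.symm (A i0 i0)).re) • (1 : ℍ[ℝ]) := by
        apply τ.symm.injective
        rw [map_smul, map_one]
        ext
        · simp
        · simp [c3]
        · simp [c4]
        · simp [c5]
      refine ⟨(τ.symm (A i0 i0)).re, ?_⟩
      refine Matrix.ext fun i j => ?_
      rw [Matrix.smul_apply]
      by_cases hij : i = j
      · subst hij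
        rw [Matrix.one_apply_eq, ← hd]
        by_cases hi : i = i0
        · rw [hi]
        · exact (hoff i i0 hi).2
      · rw [(hoff i j hij).1, Matrix.one_apply_ne hij, smul_zero]
    · rintro ⟨a, rfl⟩
      refine ⟨|a| * ‖τ.symm α‖, fun y hy => ?_⟩
      have : B ((a • (1 : Matrix (Fin n) (Fin n) ℍ[ℝ])).map τ.symm) y y = a • h y y := by
        unfold B h
        rw [Finset.smul_sum]
        refine Finset.sum_congr rfl fun i _ => ?_
        rw [Finset.sum_eq_single i]
        · rw [Matrix.map_apply, Matrix.smul_apply, Matrix.one_apply_eq, map_smul, map_one]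
          simp
        · intro j _ hj
          rw [Matrix.map_apply, Matrix.smul_apply, Matrix.one_apply_ne (Ne.symm hj)]
          simp
        · simp
      rw [this, hy, norm_smul, Real.norm_eq_abs]

end Pool.Agent.Results.MP_dceaed_al.NonzeroAlpha
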